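import Pool.Agent.Y766.R9.Stm2
import Pool.Agent.H452R4.LI.ZC

/-! Reduction of the theorem on arbitrary progressions to one-separated ones. -/

set_option autoImplicit false

namespace Pool.Agent.Y954.R9

open Finset Pool.Agent.Y766 Pool.Agent.Y766.R9

/-- the point with integer coordinates `j` -/
noncomputable def ph {k : ℕ} (t₁ : ℝ) (Δ : Fin k → ℝ) (j : Fin k → ℤ) : ℝ :=
  t₁ + ∑ i, (j i : ℝ) * Δ i

/-- the box of integer points -/
noncomputable def Bx {k : ℕ} (J : Fin k → ℕ) : Finset (Fin k → ℤ) :=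
  Fintype.piFinset (fun i => Ico (0 : ℤ) (J i))

theorem card_Bx {k : ℕ} (J : Fin k → ℕ) : (Bx J).card = ∏ i, J i := by
  simp [Bx, Fintype.card_piFinset]

theorem mem_Bx {k : ℕ} (J : Fin k → ℕ) (j : Fin k → ℤ) :
    j ∈ Bx J ↔ ∀ i, 0 ≤ j i ∧ j i < J i := by
  simp [Bx, Fintype.mem_piFinset]

open Classical in
theorem case_a {k : ℕ} (t₁ : ℝ) (Δ : Fin k → ℝ) (J : Fin k → ℕ) (P : ℝ → Prop)
    (hinj : ∀ x ∈ Bx J, ∀ y ∈ Bx J, ph t₁ Δ x = ph t₁ Δ y → x = y)
    (m : ℕ) (hm : 1 ≤ m) (d : Fin k → ℤ) (hd : d ≠ 0) (hdJ : ∀ i, |(m : ℤ) * d i| < J i)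
    (hsm : |∑ i, (d i : ℝ) * Δ i| < 1 / m) (w : ℝ)
    (hD : ∀ x : ℝ, (((((Bx J).image (ph t₁ Δ)).filter (fun t => ¬ P t)).filter
      (fun a => x ≤ a ∧ a < x + 1)).card : ℝ) ≤ w)
    (hw : w ≤ (((m / 2 : ℕ) : ℝ) + 1) / 2) :
    (∏ i, (J i : ℝ)) ≤ 2 ^ (k + 1) * (((Bx J).filter (fun y => P (ph t₁ Δ y))).card : ℝ) := by
  obtain ⟨h, hh⟩ : ∃ h : ℕ, h = m / 2 := ⟨_, rfl⟩
  rw [← hh] at hw
  have h2m : 2 * h ≤ m := by omega
  -- the start points
  obtain ⟨S, hS⟩ : ∃ S : Finset (Fin k → ℤ), S = Fintype.piFinset (fun i =>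
    Ico (max 0 (-((h : ℤ) * d i))) (min (J i : ℤ) (J i - (h : ℤ) * d i))) := ⟨_, rfl⟩
  have hq : ∀ i, -(J i : ℤ) < 2 * ((h : ℤ) * d i) ∧ 2 * ((h : ℤ) * d i) < J i := by
    intro i
    rw [← abs_lt]
    refine lt_of_le_of_lt ?_ (hdJ i)
    rw [← mul_assoc, abs_mul, abs_mul (m : ℤ)]
    have : |(2 : ℤ) * (h : ℤ)| ≤ |(m : ℤ)| := by
      rw [abs_of_nonneg (by positivity), abs_of_nonneg (by positivity)]
      exact_mod_cast h2m
    exact mul_le_mul_of_nonneg_right this (abs_nonneg _)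
  have hScard : (∏ i, (J i : ℝ)) ≤ 2 ^ k * (S.card : ℝ) := by
    rw [hS, Fintype.card_piFinset]
    push_cast
    rw [show (2 : ℝ) ^ k = ∏ _i : Fin k, (2 : ℝ) by simp, ← Finset.prod_mul_distrib]
    refine Finset.prod_le_prod (fun i _ => Nat.cast_nonneg _) fun i _ => ?_
    have h1 := hq i
    have h2 : J i ≤ 2 * (Ico (max 0 (-((h : ℤ) * d i))) (min (J i : ℤ) (J i - (h : ℤ) * d i))).card := by
      rw [Int.card_Ico]
      generalize (h : ℤ) * d i = q at *
      omega
    exact_mod_cast h2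
  have hSmem : ∀ x ∈ S, ∀ a : ℕ, a ≤ h → (fun i => x i + (a : ℤ) * d i) ∈ Bx J := by
    intro x hx a ha
    rw [hS, Fintype.mem_piFinset] at hx
    rw [mem_Bx]
    intro i
    have h1 := hx i
    rw [mem_Ico, max_le_iff, lt_min_iff] at h1
    obtain ⟨⟨h2, h3⟩, h4, h5⟩ := h1
    have ha' : (a : ℤ) ≤ h := by exact_mod_cast ha
    have ha0 : (0 : ℤ) ≤ a := by positivity
    show 0 ≤ x i + (a : ℤ) * d i ∧ x i + (a : ℤ) * d i < J i
    rcases le_total 0 (d i) with h6 | h6
    · have h7 : 0 ≤ (a : ℤ) * d i := mul_nonneg ha0 h6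
      have h8 : (a : ℤ) * d i ≤ (h : ℤ) * d i := mul_le_mul_of_nonneg_right ha' h6
      omega
    · have h7 : (a : ℤ) * d i ≤ 0 := mul_nonpos_of_nonneg_of_nonpos ha0 h6
      have h8 : (h : ℤ) * d i ≤ (a : ℤ) * d i := mul_le_mul_of_nonpos_right ha' h6
      omega
  have hph : ∀ (x : Fin k → ℤ) (a : ℕ), ph t₁ Δ (fun i => x i + (a : ℤ) * d i) =
      ph t₁ Δ x + a * ∑ i, (d i : ℝ) * Δ i := by
    intro x a
    unfold ph
    rw [Finset.mul_sum, add_assoc, ← Finset.sum_add_distrib]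
    congr 1
    refine Finset.sum_congr rfl fun i _ => ?_
    push_cast
    ring
  have hshift_inj : ∀ (x : Fin k → ℤ) (a b : ℕ), (fun i => x i + (a : ℤ) * d i) =
      (fun i => x i + (b : ℤ) * d i) → a = b := by
    intro x a b hab
    obtain ⟨i, hi⟩ : ∃ i, d i ≠ 0 := by
      by_contra hcon
      push Not at hcon
      exact hd (funext hcon)
    have h1 := congrFun hab i
    have h2 : ((a : ℤ) - b) * d i = 0 := by linarith
    rcases mul_eq_zero.mp h2 with h3 | h3
    · exact_mod_cast (sub_eq_zero.mp h3)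
    · exact absurd h3 hi
  have hmR : (0 : ℝ) < m := by exact_mod_cast hm
  -- few bad translates
  have hbad : ∀ x ∈ S, (((range (h + 1)).filter
      (fun a : ℕ => ¬ P (ph t₁ Δ (fun i => x i + (a : ℤ) * d i)))).card : ℝ) ≤ w := by
    intro x hx
    refine le_trans ?_ (hD (ph t₁ Δ x - 1 / 2))
    norm_cast
    refine Finset.card_le_card_of_injOn (fun a : ℕ => ph t₁ Δ (fun i => x i + (a : ℤ) * d i)) ?_ ?_
    · intro a ha
      rw [Finset.mem_coe, Finset.mem_filter, Finset.mem_range] at ha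
      have h1 := hSmem x hx a (by omega)
      rw [Finset.mem_coe, Finset.mem_filter, Finset.mem_filter, Finset.mem_image]
      refine ⟨⟨⟨_, h1, rfl⟩, ha.2⟩, ?_⟩
      have h2 : |(a : ℝ) * ∑ i, (d i : ℝ) * Δ i| < 1 / 2 := by
        rcases Nat.eq_zero_or_pos a with h3 | h3
        · rw [h3]; norm_num
        · rw [abs_mul, abs_of_nonneg (Nat.cast_nonneg a)]
          have h4 : (0 : ℝ) < a := by exact_mod_cast h3
          calc (a : ℝ) * |∑ i, (d i : ℝ) * Δ i| < a * (1 / m) := mul_lt_mul_of_pos_left hsm h4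
            _ ≤ 1 / 2 := by
              rw [mul_one_div, div_le_div_iff₀ hmR (by norm_num)]
              have : 2 * a ≤ m := by omega
              have : (2 : ℝ) * a ≤ m := by exact_mod_cast this
              linarith
      rw [abs_lt] at h2
      show ph t₁ Δ x - 1 / 2 ≤ ph t₁ Δ (fun i => x i + (a : ℤ) * d i) ∧
        ph t₁ Δ (fun i => x i + (a : ℤ) * d i) < ph t₁ Δ x - 1 / 2 + 1
      rw [hph]
      constructor <;> linarith [h2.1, h2.2]
    · intro a ha b hb hab
      rw [Finset.mem_coe, Finset.mem_filter, Finset.mem_range] at ha hb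
      exact hshift_inj x a b (hinj _ (hSmem x hx a (by omega)) _ (hSmem x hx b (by omega)) hab)
  have hgood : ∀ x ∈ S, (((h : ℝ) + 1) / 2) ≤ (((range (h + 1)).filter
      (fun a : ℕ => P (ph t₁ Δ (fun i => x i + (a : ℤ) * d i)))).card : ℝ) := by
    intro x hx
    have h1 := hbad x hx
    have h2 := Finset.card_filter_add_card_filter_not (s := range (h + 1))
      (fun a : ℕ => P (ph t₁ Δ (fun i => x i + (a : ℤ) * d i)))
    rw [Finset.card_range] at h2
    have h3 : ((((range (h + 1)).filter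
      (fun a : ℕ => P (ph t₁ Δ (fun i => x i + (a : ℤ) * d i)))).card : ℝ) + (((range (h + 1)).filter
      (fun a : ℕ => ¬ P (ph t₁ Δ (fun i => x i + (a : ℤ) * d i)))).card : ℝ)) = h + 1 := by
      exact_mod_cast h2
    linarith
  have hpair : (∑ x ∈ S, (((range (h + 1)).filter
      (fun a : ℕ => P (ph t₁ Δ (fun i => x i + (a : ℤ) * d i)))).card : ℝ)) ≤
      (h + 1) * (((Bx J).filter (fun y => P (ph t₁ Δ y))).card : ℝ) := by
    have h1 := Finset.sum_card_bipartiteAbove_eq_sum_card_bipartiteBelow (s := S) (t := range (h + 1))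
      (fun (x : Fin k → ℤ) (a : ℕ) => P (ph t₁ Δ (fun i => x i + (a : ℤ) * d i)))
    unfold Finset.bipartiteAbove Finset.bipartiteBelow at h1
    have h2 : (∑ x ∈ S, (((range (h + 1)).filter
      (fun a : ℕ => P (ph t₁ Δ (fun i => x i + (a : ℤ) * d i)))).card : ℝ)) =
      ∑ a ∈ range (h + 1), ((S.filter (fun x => P (ph t₁ Δ (fun i => x i + (a : ℤ) * d i)))).card : ℝ) := by
      exact_mod_cast h1
    rw [h2]
    calc (∑ a ∈ range (h + 1), ((S.filter (fun x => P (ph t₁ Δ (fun i => x i + (a : ℤ) * d i)))).card : ℝ))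
        ≤ ∑ a ∈ range (h + 1), (((Bx J).filter (fun y => P (ph t₁ Δ y))).card : ℝ) := by
          refine Finset.sum_le_sum fun a ha => ?_
          rw [Finset.mem_range] at ha
          norm_cast
          refine Finset.card_le_card_of_injOn (fun x => (fun i => x i + (a : ℤ) * d i)) ?_ ?_
          · intro x hx
            rw [Finset.mem_coe, Finset.mem_filter] at hx ⊢
            exact ⟨hSmem x hx.1 a (by omega), hx.2⟩
          · intro x _ y _ hxy
            funext i
            have := congrFun hxy i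
            simpa using this
      _ = (h + 1) * (((Bx J).filter (fun y => P (ph t₁ Δ y))).card : ℝ) := by
          rw [Finset.sum_const, Finset.card_range, nsmul_eq_mul]
          push_cast
          ring
  have hsum : (S.card : ℝ) * (((h : ℝ) + 1) / 2) ≤
      (h + 1) * (((Bx J).filter (fun y => P (ph t₁ Δ y))).card : ℝ) := by
    refine le_trans ?_ hpair
    have h1 := Finset.sum_le_sum hgood
    rw [Finset.sum_const, nsmul_eq_mul] at h1
    exact h1
  have hS2 : (S.card : ℝ) ≤ 2 * (((Bx J).filter (fun y => P (ph t₁ Δ y))).card : ℝ) := by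
    have h0 : (0 : ℝ) < h + 1 := by positivity
    have h1 : (h + 1 : ℝ) * S.card ≤ (h + 1) * (2 * (((Bx J).filter (fun y => P (ph t₁ Δ y))).card : ℝ)) := by
      linarith
    exact le_of_mul_le_mul_left h1 h0
  calc (∏ i, (J i : ℝ)) ≤ 2 ^ k * (S.card : ℝ) := hScard
    _ ≤ 2 ^ k * (2 * (((Bx J).filter (fun y => P (ph t₁ Δ y))).card : ℝ)) := by gcongr
    _ = _ := by rw [pow_succ]; ring

open Classical in
theorem case_b {k : ℕ} (t₁ : ℝ) (Δ : Fin k → ℝ) (J : Fin k → ℕ) (P : ℝ → Prop)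
    (hinj : ∀ x ∈ Bx J, ∀ y ∈ Bx J, ph t₁ Δ x = ph t₁ Δ y → x = y)
    (m : ℕ) (hm : 1 ≤ m)
    (hsep : ∀ d : Fin k → ℤ, d ≠ 0 → (∀ i, |(m : ℤ) * d i| < J i) → 1 / (m : ℝ) ≤ |∑ i, (d i : ℝ) * Δ i|)
    (θ : ℝ)
    (hN : ∀ G : Finset ℝ, ProperGAP k G → (∀ t ∈ G, t ∈ (Bx J).image (ph t₁ Δ)) →
      (∀ t ∈ G, ∀ u ∈ G, t ≠ u → 1 ≤ |t - u|) →
      (∏ i, (J i : ℝ)) ≤ (2 * m) ^ k * (G.card : ℝ) → θ * G.card ≤ ((G.filter P).card : ℝ)) :
    θ * (∏ i, (J i : ℝ)) ≤ (((Bx J).filter (fun y => P (ph t₁ Δ y))).card : ℝ) := by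
  have hmZ : (0 : ℤ) < m := by exact_mod_cast hm
  have hmR : (0 : ℝ) < m := by exact_mod_cast hm
  -- residues
  obtain ⟨R, hR⟩ : ∃ R : Finset (Fin k → ℤ), R = Fintype.piFinset (fun _ => Ico (0 : ℤ) m) := ⟨_, rfl⟩
  have hmapR : ∀ j : Fin k → ℤ, (fun i => j i % (m : ℤ)) ∈ R := by
    intro j
    rw [hR, Fintype.mem_piFinset]
    intro i
    rw [mem_Ico]
    exact ⟨Int.emod_nonneg _ hmZ.ne', Int.emod_lt_of_pos _ hmZ⟩
  have hc1 : (∏ i, (J i : ℝ)) = ∑ r ∈ R, (((Bx J).filter (fun j => (fun i => j i % (m : ℤ)) = r)).card : ℝ) := by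
    have h1 := Finset.card_eq_sum_card_fiberwise (s := Bx J) (t := R)
      (f := fun j => (fun i => j i % (m : ℤ))) (fun j _ => hmapR j)
    rw [card_Bx] at h1
    exact_mod_cast h1
  have hc2 : (((Bx J).filter (fun y => P (ph t₁ Δ y))).card : ℝ) =
      ∑ r ∈ R, ((((Bx J).filter (fun y => P (ph t₁ Δ y))).filter
        (fun j => (fun i => j i % (m : ℤ)) = r)).card : ℝ) := by
    have h1 := Finset.card_eq_sum_card_fiberwise (s := (Bx J).filter (fun y => P (ph t₁ Δ y))) (t := R)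
      (f := fun j => (fun i => j i % (m : ℤ))) (fun j _ => hmapR j)
    exact_mod_cast h1
  rw [hc1, hc2, Finset.mul_sum]
  refine Finset.sum_le_sum fun r hr => ?_
  rw [hR, Fintype.mem_piFinset] at hr
  have hr0 : ∀ i, 0 ≤ r i ∧ r i < m := fun i => mem_Ico.mp (hr i)
  obtain ⟨B, hB⟩ : ∃ B : Finset (Fin k → ℤ), B = (Bx J).filter (fun j => (fun i => j i % (m : ℤ)) = r) :=
    ⟨_, rfl⟩
  have hcomm : ((Bx J).filter (fun y => P (ph t₁ Δ y))).filter (fun j => (fun i => j i % (m : ℤ)) = r) =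
      B.filter (fun y => P (ph t₁ Δ y)) := by
    rw [hB, Finset.filter_filter, Finset.filter_filter]
    congr 1
    funext y
    rw [and_comm]
  rw [hcomm, ← hB]
  have hmemB : ∀ j, j ∈ B ↔ j ∈ Bx J ∧ ∀ i, j i % (m : ℤ) = r i := by
    intro j
    rw [hB, Finset.mem_filter]
    constructor
    · rintro ⟨h1, h2⟩
      exact ⟨h1, fun i => congrFun h2 i⟩
    · rintro ⟨h1, h2⟩
      exact ⟨h1, funext h2⟩
  have hBsub : ∀ j ∈ B, j ∈ Bx J := fun j hj => ((hmemB j).1 hj).1
  rcases B.eq_empty_or_nonempty with hemp | ⟨j0, hj0⟩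
  · rw [hemp]
    simp
  have hrJ : ∀ i, r i < J i := by
    intro i
    have h1 := (hmemB j0).1 hj0
    have h2 := (mem_Bx J j0).1 h1.1 i
    have h3 := h1.2 i
    have h4 : j0 i % (m : ℤ) ≤ j0 i := by
      have h5 := Int.emod_add_mul_ediv (j0 i) m
      have h6 : 0 ≤ (m : ℤ) * (j0 i / m) := mul_nonneg hmZ.le (Int.ediv_nonneg h2.1 hmZ.le)
      linarith
    omega
  -- number of terms
  obtain ⟨L, hL⟩ : ∃ L : Fin k → ℕ, L = fun i => (J i - (r i).toNat + (m - 1)) / m := ⟨_, rfl⟩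
  have hLlt : ∀ i (a : ℕ), a < L i ↔ r i + (m : ℤ) * a < J i := by
    intro i a
    rw [hL]
    have h1 : r i = ((r i).toNat : ℤ) := (Int.toNat_of_nonneg (hr0 i).1).symm
    have h2 := hrJ i
    show a < (J i - (r i).toNat + (m - 1)) / m ↔ r i + (m : ℤ) * a < J i
    rw [Nat.lt_div_iff_mul_lt (by omega)]
    generalize hg : (r i).toNat = q at *
    rw [h1]
    have h3 : a * m < J i - q + (m - 1) - (m - 1) ↔ m * a < J i - q := by
      rw [mul_comm a m]; omega
    rw [h3]
    constructor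
    · intro h4
      have h5 : q + m * a < J i := by omega
      exact_mod_cast h5
    · intro h4
      have h5 : q + m * a < J i := by exact_mod_cast h4
      omega
  have hLpos : ∀ i, 1 ≤ L i := by
    intro i
    have := (hLlt i 0).2 (by simpa using hrJ i)
    omega
  have hLbig : ∀ i, J i ≤ 2 * m * L i := by
    intro i
    by_contra hcon
    push Not at hcon
    have h1 : ¬ (L i < L i) := lt_irrefl _
    rw [hLlt] at h1
    push Not at h1
    have h2 := (hr0 i).2
    have h3 := hLpos i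
    have h4 : (J i : ℤ) < m + m * L i := by linarith
    have h5 : J i < m + m * L i := by exact_mod_cast h4
    nlinarith
  -- the class as an image
  have himg : B = (Fintype.piFinset (fun i => range (L i))).image
      (fun (a : Fin k → ℕ) => (fun i => r i + (m : ℤ) * (a i : ℤ))) := by
    ext j
    rw [hmemB, Finset.mem_image, mem_Bx]
    constructor
    · rintro ⟨h1, h2⟩
      refine ⟨fun i => (j i / m).toNat, ?_, ?_⟩
      · rw [Fintype.mem_piFinset]
        intro i
        rw [mem_range, hLlt, Int.toNat_of_nonneg (Int.ediv_nonneg (h1 i).1 hmZ.le)]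
        have h3 := Int.emod_add_mul_ediv (j i) m
        rw [h2 i] at h3
        rw [h3]
        exact (h1 i).2
      · funext i
        show r i + (m : ℤ) * (((j i / m).toNat : ℕ) : ℤ) = j i
        rw [Int.toNat_of_nonneg (Int.ediv_nonneg (h1 i).1 hmZ.le)]
        have h3 := Int.emod_add_mul_ediv (j i) m
        rw [h2 i] at h3
        exact h3
    · rintro ⟨a, ha, rfl⟩
      rw [Fintype.mem_piFinset] at ha
      refine ⟨fun i => ⟨?_, ?_⟩, fun i => ?_⟩
      · have := (hr0 i).1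
        show 0 ≤ r i + (m : ℤ) * (a i : ℤ)
        positivity
      · exact (hLlt i (a i)).1 (mem_range.mp (ha i))
      · show (r i + (m : ℤ) * (a i : ℤ)) % m = r i
        rw [Int.add_mul_emod_self_left, Int.emod_eq_of_lt (hr0 i).1 (hr0 i).2]
  have hBcard : B.card = ∏ i, L i := by
    rw [himg, Finset.card_image_of_injective, Fintype.card_piFinset]
    · simp
    · intro a b hab
      funext i
      have h1 := congrFun hab i
      have h2 : (m : ℤ) * (a i : ℤ) = (m : ℤ) * (b i : ℤ) := by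
        have : r i + (m : ℤ) * (a i : ℤ) = r i + (m : ℤ) * (b i : ℤ) := h1
        linarith
      have h3 := mul_left_cancel₀ hmZ.ne' h2
      exact_mod_cast h3
  have hinjB : Set.InjOn (ph t₁ Δ) (B : Set (Fin k → ℤ)) := by
    intro x hx y hy hxy
    exact hinj x (hBsub x hx) y (hBsub y hy) hxy
  have hGcard : (B.image (ph t₁ Δ)).card = ∏ i, L i := by
    rw [Finset.card_image_of_injOn hinjB, hBcard]
  have hGAP : ProperGAP k (B.image (ph t₁ Δ)) := by
    refine ⟨t₁ + ∑ i, (r i : ℝ) * Δ i, fun i => m * Δ i, L, ?_, hGcard⟩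
    intro t
    rw [Finset.mem_image]
    have hval : ∀ a : Fin k → ℕ, ph t₁ Δ (fun i => r i + (m : ℤ) * (a i : ℤ)) =
        t₁ + ∑ i, (r i : ℝ) * Δ i + ∑ i, (a i : ℝ) * (m * Δ i) := by
      intro a
      unfold ph
      rw [add_assoc, ← Finset.sum_add_distrib]
      congr 1
      refine Finset.sum_congr rfl fun i _ => ?_
      push_cast
      ring
    constructor
    · rintro ⟨j, hj, rfl⟩
      rw [himg, Finset.mem_image] at hj
      obtain ⟨a, ha, rfl⟩ := hj
      rw [Fintype.mem_piFinset] at ha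
      exact ⟨a, fun i => mem_range.mp (ha i), hval a⟩
    · rintro ⟨a, ha, rfl⟩
      refine ⟨_, ?_, hval a⟩
      rw [himg, Finset.mem_image]
      exact ⟨a, by rw [Fintype.mem_piFinset]; exact fun i => mem_range.mpr (ha i), rfl⟩
  have hsepG : ∀ t ∈ B.image (ph t₁ Δ), ∀ u ∈ B.image (ph t₁ Δ), t ≠ u → 1 ≤ |t - u| := by
    intro t ht u hu htu
    rw [himg, Finset.image_image, Finset.mem_image] at ht hu
    obtain ⟨a, ha, rfl⟩ := ht
    obtain ⟨b, hb, rfl⟩ := hu
    rw [Fintype.mem_piFinset] at ha hb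
    have hab : a ≠ b := by
      rintro rfl
      exact htu rfl
    have h1 := hsep (fun i => (a i : ℤ) - b i) ?_ ?_
    · have h2 : (ph t₁ Δ ∘ fun (a : Fin k → ℕ) => (fun i => r i + (m : ℤ) * (a i : ℤ))) a -
          (ph t₁ Δ ∘ fun (a : Fin k → ℕ) => (fun i => r i + (m : ℤ) * (a i : ℤ))) b =
          m * ∑ i, (((a i : ℤ) - b i : ℤ) : ℝ) * Δ i := by
        simp only [Function.comp, ph]
        rw [Finset.mul_sum, add_sub_add_left_eq_sub, ← Finset.sum_sub_distrib]
        refine Finset.sum_congr rfl fun i _ => ?_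
        push_cast
        ring
      rw [h2, abs_mul, abs_of_pos hmR]
      calc (1 : ℝ) = m * (1 / m) := by field_simp
        _ ≤ _ := mul_le_mul_of_nonneg_left h1 hmR.le
    · intro h0
      apply hab
      funext i
      have := congrFun h0 i
      have h2 : (a i : ℤ) - b i = 0 := this
      omega
    · intro i
      have h2 := (hLlt i (a i)).1 (mem_range.mp (ha i))
      have h3 := (hLlt i (b i)).1 (mem_range.mp (hb i))
      have h4 := (hr0 i).1
      have h5 : (0 : ℤ) ≤ (m : ℤ) * a i := by positivity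
      have h6 : (0 : ℤ) ≤ (m : ℤ) * b i := by positivity
      show |(m : ℤ) * ((a i : ℤ) - b i)| < J i
      rw [mul_sub, abs_lt]
      constructor <;> omega
  have hbig : (∏ i, (J i : ℝ)) ≤ (2 * m) ^ k * ((B.image (ph t₁ Δ)).card : ℝ) := by
    rw [hGcard]
    push_cast
    rw [show (2 * (m : ℝ)) ^ k = ∏ _i : Fin k, (2 * (m : ℝ)) by simp, ← Finset.prod_mul_distrib]
    refine Finset.prod_le_prod (fun i _ => Nat.cast_nonneg _) fun i _ => ?_
    exact_mod_cast hLbig i
  have hfin := hN (B.image (ph t₁ Δ)) hGAP (by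
    intro t ht
    rw [Finset.mem_image] at ht ⊢
    obtain ⟨j, hj, rfl⟩ := ht
    exact ⟨j, hBsub j hj, rfl⟩) hsepG hbig
  rw [Finset.card_image_of_injOn hinjB] at hfin
  refine hfin.trans ?_
  have h1 : (B.image (ph t₁ Δ)).filter P = (B.filter (fun y => P (ph t₁ Δ y))).image (ph t₁ Δ) := by
    rw [Finset.filter_image]
  rw [h1]
  exact_mod_cast Finset.card_image_le

open Classical in
theorem ord_count {C T X : ℝ} (hC : 0 < C)
    (hZ : ∀ (A : Finset ℝ), (∀ γ ∈ A, 0 < γ ∧ γ ≤ T ∧ riemannZeta (1 / 2 + Complex.I * (γ : ℂ)) = 0) →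
      ∀ x : ℝ, ((A.filter (fun a => x ≤ a ∧ a < x + 1)).card : ℝ) ≤ C * Real.log T)
    (hT : 3 ≤ T) (F : Finset ℝ) (hF : ∀ t ∈ F, 0 ≤ t ∧ t ≤ X) (hX0 : 0 ≤ X) (hXT : X ≤ T)
    (P : ℝ → Prop) (hP : ∀ t : ℝ, P t ↔ riemannZeta (1 / 2 + t * Complex.I) ≠ 0) :
    ((F.filter (fun t : ℝ => ¬ P t)).card : ℝ) ≤ (X + 1) * (C * Real.log T) + 1 := by
  have hlog : 0 ≤ Real.log T := Real.log_nonneg (by linarith)
  obtain ⟨A, hA⟩ : ∃ A : Finset ℝ, A = F.filter (fun t : ℝ => riemannZeta (1 / 2 + t * Complex.I) = 0 ∧ 0 < t) :=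
    ⟨_, rfl⟩
  have hsub : F.filter (fun t : ℝ => ¬ P t) ⊆ insert 0 A := by
    intro t ht
    rw [Finset.mem_filter, hP, not_not] at ht
    rw [Finset.mem_insert, hA, Finset.mem_filter]
    rcases (hF t ht.1).1.eq_or_lt with h1 | h1
    · exact Or.inl h1.symm
    · exact Or.inr ⟨ht.1, ht.2, h1⟩
  have hAz : ∀ γ ∈ A, 0 < γ ∧ γ ≤ T ∧ riemannZeta (1 / 2 + Complex.I * (γ : ℂ)) = 0 := by
    intro γ hγ
    rw [hA, Finset.mem_filter] at hγ
    refine ⟨hγ.2.2, (hF γ hγ.1).2.trans hXT, ?_⟩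
    rw [mul_comm]
    exact hγ.2.1
  have hZA := hZ A hAz
  have hmaps : ∀ t ∈ A, ⌊t⌋₊ ∈ range (⌊X⌋₊ + 1) := by
    intro t ht
    rw [hA, Finset.mem_filter] at ht
    rw [Finset.mem_range]
    exact Nat.lt_succ_of_le (Nat.floor_le_floor (hF t ht.1).2)
  have hcA : (A.card : ℝ) ≤ (X + 1) * (C * Real.log T) := by
    rw [Finset.card_eq_sum_card_fiberwise hmaps]
    push_cast
    calc (∑ n ∈ range (⌊X⌋₊ + 1), ((A.filter (fun t => ⌊t⌋₊ = n)).card : ℝ))
        ≤ ∑ n ∈ range (⌊X⌋₊ + 1), (C * Real.log T) := by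
          refine Finset.sum_le_sum fun n _ => ?_
          refine le_trans ?_ (hZA n)
          norm_cast
          refine Finset.card_le_card fun t ht => ?_
          rw [Finset.mem_filter] at ht ⊢
          refine ⟨ht.1, ?_⟩
          have h0 : 0 ≤ t := by
            have := ht.1
            rw [hA, Finset.mem_filter] at this
            exact this.2.2.le
          have h1 := (Nat.floor_eq_iff h0).1 ht.2
          exact_mod_cast h1
      _ = ((⌊X⌋₊ : ℝ) + 1) * (C * Real.log T) := by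
          rw [Finset.sum_const, Finset.card_range, nsmul_eq_mul]
          push_cast
          ring
      _ ≤ (X + 1) * (C * Real.log T) := by
          have := Nat.floor_le hX0
          gcongr
  have h1 : ((F.filter (fun t : ℝ => ¬ P t)).card : ℝ) ≤ A.card + 1 := by
    have := (Finset.card_le_card hsub).trans (Finset.card_insert_le 0 A)
    exact_mod_cast this
  linarith

theorem ev_log {C s : ℝ} (hC : 0 < C) (hs : 0 < s) :
    ∀ᶠ T : ℝ in Filter.atTop, C * Real.log T ≤ T ^ s := by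
  have h1 := (isLittleO_log_rpow_atTop hs).bound (show (0 : ℝ) < 1 / C by positivity)
  filter_upwards [h1, Filter.eventually_ge_atTop (1 : ℝ)] with T hT hT1
  rw [Real.norm_of_nonneg (Real.log_nonneg hT1), Real.norm_of_nonneg (by positivity)] at hT
  rw [div_mul_eq_mul_div, one_mul, le_div_iff₀ hC] at hT
  linarith

set_option maxHeartbeats 4000000 in
open Classical in
theorem red (hN : S_NVG) : S_FIN := by
  intro k δ ε hδ hε
  obtain ⟨C1, hC1, hNVG0⟩ := hN k (δ / 4) (ε / 2) (by positivity) (by positivity)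
  obtain ⟨P, hP⟩ : ∃ P : ℝ → Prop, ∀ t : ℝ, P t ↔ riemannZeta (1 / 2 + t * Complex.I) ≠ 0 :=
    ⟨fun t => riemannZeta (1 / 2 + t * Complex.I) ≠ 0, fun _ => Iff.rfl⟩
  have hPf : ∀ G : Finset ℝ, ((G.filter (fun t : ℝ => riemannZeta (1 / 2 + t * Complex.I) ≠ 0)).card : ℝ) =
      ((G.filter P).card : ℝ) := by
    intro G
    congr 2
    ext t
    rw [Finset.mem_filter, Finset.mem_filter, hP]
  have hNVG : ∀ (T : ℝ) (F : Finset ℝ), C1 ≤ T → ProperGAP k F → (∀ t ∈ F, T ≤ t ∧ t ≤ 2 * T) →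
      (∀ t ∈ F, ∀ u ∈ F, t ≠ u → 1 ≤ |t - u|) → T ^ (2 / 3 + δ / 4) ≤ F.card →
      T ^ (-(ε / 2)) * F.card ≤ ((F.filter P).card : ℝ) := by
    intro T F a1 a2 a3 a4 a5
    rw [← hPf]
    exact hNVG0 T F a1 a2 a3 a4 a5
  clear hNVG0
  obtain ⟨C, hC, hZ⟩ := Pool.Agent.H452R4.LI.zc
  obtain ⟨η, hη⟩ : ∃ η : ℝ, η = δ / (4 * (k + 1)) := ⟨_, rfl⟩
  have hηpos : 0 < η := by rw [hη]; positivity
  have hηk : η * k ≤ δ / 4 := by
    rw [hη, div_mul_eq_mul_div, div_le_div_iff₀ (by positivity) (by norm_num)]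
    nlinarith
  have htend : ∀ {s : ℝ}, 0 < s → ∀ c : ℝ, ∀ᶠ T : ℝ in Filter.atTop, c ≤ T ^ s :=
    fun hs c => (tendsto_rpow_atTop hs).eventually_ge_atTop c
  obtain ⟨T0, hT0⟩ := Filter.eventually_atTop.1 ((Filter.eventually_ge_atTop (3 : ℝ)).and
    ((ev_log hC (show (0 : ℝ) < 1 / 12 by norm_num)).and ((htend (show (0 : ℝ) < 1 / 12 by norm_num) 6).and
    ((htend hε (2 ^ (2 * k + 1))).and ((htend (half_pos hε) (2 ^ k)).and
    ((htend (show (0 : ℝ) < 1 / 2 by norm_num) (2 * C1)).and ((htend (half_pos hδ) (8 ^ k)).and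
    (ev_log (show 0 < 4 * C by positivity) hηpos))))))))
  refine ⟨max T0 1, le_max_right _ _, ?_⟩
  intro T F hT hF hFT hcard
  obtain ⟨e1, e2, e3, e4, e5, e6, e7, e8⟩ := hT0 T (le_trans (le_max_left _ _) hT)
  have hTpos : 0 < T := by linarith
  have hT1 : 1 ≤ T := by linarith
  obtain ⟨t₀, Δ, J, hmem, hcardF⟩ := hF
  have hcpos : (0 : ℝ) < F.card := lt_of_lt_of_le (by positivity) hcard
  have hne : F.Nonempty := by
    rw [← Finset.card_pos]
    exact_mod_cast hcpos
  have hJpos : ∀ i, 1 ≤ J i := by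
    intro i
    by_contra hcon
    have h1 : J i = 0 := by omega
    have h2 : ∏ i, J i = 0 := Finset.prod_eq_zero (Finset.mem_univ i) h1
    rw [hcardF, h2] at hcpos
    simp at hcpos
  -- the number of members which are not ordinates
  rw [hPf]
  obtain ⟨N, hNdef⟩ : ∃ N : ℝ, N = ((F.filter P).card : ℝ) := ⟨_, rfl⟩
  rw [← hNdef]
  obtain ⟨X, hX⟩ : ∃ X : ℝ, X = F.max' hne := ⟨_, rfl⟩
  have hXmem : X ∈ F := by rw [hX]; exact Finset.max'_mem F hne
  have hXle : ∀ t ∈ F, t ≤ X := by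
    intro t ht
    rw [hX]
    exact Finset.le_max' F t ht
  have hX0 : 0 ≤ X := (hFT X hXmem).1
  have hXT : X ≤ T := (hFT X hXmem).2
  have hTe : T ^ (-ε) * T ^ ε = 1 := by
    rw [← Real.rpow_add hTpos]; simp
  by_cases hXs : X ≤ T ^ (1 / 2 : ℝ)
  · have h1 := ord_count hC (fun A hA => hZ T A e1 hA) e1 F (fun t ht => ⟨(hFT t ht).1, hXle t ht⟩) hX0 hXT
      P hP
    have h2 := Finset.card_filter_add_card_filter_not (s := F) P
    have h3 : N + ((F.filter (fun t : ℝ => ¬ P t)).card : ℝ) = F.card := by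
      rw [hNdef]
      exact_mod_cast h2
    have hlog : 0 ≤ C * Real.log T := mul_nonneg hC.le (Real.log_nonneg hT1)
    have h12 : (1 : ℝ) ≤ T ^ (1 / 2 : ℝ) := Real.one_le_rpow hT1 (by norm_num)
    have h4 : (X + 1) * (C * Real.log T) + 1 ≤ T ^ (2 / 3 : ℝ) / 2 := by
      have h5 : (X + 1) * (C * Real.log T) ≤ (T ^ (1 / 2 : ℝ) + T ^ (1 / 2 : ℝ)) * T ^ (1 / 12 : ℝ) := by
        gcongr
      have h6 : T ^ (2 / 3 : ℝ) = T ^ (1 / 2 : ℝ) * T ^ (1 / 12 : ℝ) * T ^ (1 / 12 : ℝ) := by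
        rw [← Real.rpow_add hTpos, ← Real.rpow_add hTpos]; norm_num
      have h7 : (1 : ℝ) ≤ T ^ (1 / 2 : ℝ) * T ^ (1 / 12 : ℝ) := by
        have : (1 : ℝ) ≤ T ^ (1 / 12 : ℝ) := by linarith
        nlinarith
      rw [h6]
      nlinarith
    have h8 : T ^ (2 / 3 : ℝ) ≤ F.card := by
      refine le_trans ?_ hcard
      exact Real.rpow_le_rpow_of_exponent_le hT1 (by linarith)
    have h9 : (F.card : ℝ) ≤ 2 * N := by linarith
    have h10 : (2 : ℝ) ≤ T ^ ε := by
      refine le_trans ?_ e4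
      calc (2 : ℝ) = 2 ^ 1 := by norm_num
        _ ≤ 2 ^ (2 * k + 1) := pow_le_pow_right₀ (by norm_num) (by omega)
    have hN0 : 0 ≤ N := by rw [hNdef]; positivity
    calc T ^ (-ε) * F.card ≤ T ^ (-ε) * (T ^ ε * N) := by
          have : (F.card : ℝ) ≤ T ^ ε * N := h9.trans (by gcongr)
          gcongr
      _ = N := by rw [← mul_assoc, hTe, one_mul]
  · push Not at hXs
    -- the upper half of the box
    obtain ⟨lo, hlo⟩ : ∃ lo : Fin k → ℕ, lo = fun i => if 0 ≤ Δ i then J i / 2 else 0 := ⟨_, rfl⟩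
    obtain ⟨J', hJ'⟩ : ∃ J' : Fin k → ℕ, J' = fun i => J i - J i / 2 := ⟨_, rfl⟩
    obtain ⟨t₁, ht₁⟩ : ∃ t₁ : ℝ, t₁ = t₀ + ∑ i, (lo i : ℝ) * Δ i := ⟨_, rfl⟩
    have hlo2 : ∀ i, lo i ≤ J i / 2 := by
      intro i
      rw [hlo]
      show (if 0 ≤ Δ i then J i / 2 else 0) ≤ J i / 2
      split_ifs <;> omega
    have hval : ∀ j ∈ Bx J', ph t₁ Δ j = t₀ + ∑ i, ((lo i + (j i).toNat : ℕ) : ℝ) * Δ i ∧
        ∀ i, lo i + (j i).toNat < J i := by
      intro j hj
      rw [mem_Bx] at hj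
      constructor
      · unfold ph
        rw [ht₁, add_assoc, ← Finset.sum_add_distrib]
        congr 1
        refine Finset.sum_congr rfl fun i _ => ?_
        have h1 : ((j i).toNat : ℝ) = (j i : ℝ) := by
          have := Int.toNat_of_nonneg (hj i).1
          exact_mod_cast this
        push_cast
        rw [h1]
        ring
      · intro i
        have h1 := hj i
        have h2 := hlo2 i
        have h3 : J' i = J i - J i / 2 := by rw [hJ']
        rw [h3] at h1
        omega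
    have hinj0 : Set.InjOn (fun j : Fin k → ℕ => t₀ + ∑ i, (j i : ℝ) * Δ i)
        ((Fintype.piFinset (fun i => range (J i)) : Finset (Fin k → ℕ)) : Set (Fin k → ℕ)) := by
      apply Finset.injOn_of_card_image_eq
      have h1 : (Fintype.piFinset (fun i => range (J i))).image
          (fun j : Fin k → ℕ => t₀ + ∑ i, (j i : ℝ) * Δ i) = F := by
        ext t
        rw [Finset.mem_image, hmem]
        constructor
        · rintro ⟨j, hj, rfl⟩
          rw [Fintype.mem_piFinset] at hj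
          exact ⟨j, fun i => mem_range.mp (hj i), rfl⟩
        · rintro ⟨j, hj, rfl⟩
          exact ⟨j, by rw [Fintype.mem_piFinset]; exact fun i => mem_range.mpr (hj i), rfl⟩
      rw [h1, hcardF, Fintype.card_piFinset]
      simp
    have hinj : ∀ x ∈ Bx J', ∀ y ∈ Bx J', ph t₁ Δ x = ph t₁ Δ y → x = y := by
      intro x hx y hy hxy
      rw [(hval x hx).1, (hval y hy).1] at hxy
      have h1 := @hinj0 (fun i => lo i + (x i).toNat)
        (by rw [Finset.mem_coe, Fintype.mem_piFinset]; exact fun i => mem_range.mpr ((hval x hx).2 i))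
        (fun i => lo i + (y i).toNat)
        (by rw [Finset.mem_coe, Fintype.mem_piFinset]; exact fun i => mem_range.mpr ((hval y hy).2 i)) hxy
      funext i
      have h2 : lo i + (x i).toNat = lo i + (y i).toNat := congrFun h1 i
      rw [mem_Bx] at hx hy
      have h3 := hx i
      have h4 := hy i
      omega
    have hphF : ∀ j ∈ Bx J', ph t₁ Δ j ∈ F := by
      intro j hj
      rw [hmem]
      exact ⟨_, (hval j hj).2, (hval j hj).1⟩
    have htwo : ∀ j ∈ Bx J', X ≤ 2 * ph t₁ Δ j := by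
      intro j hj
      obtain ⟨jX, hjX, hXeq⟩ := (hmem X).1 hXmem
      -- the reflected point
      have h1 : t₀ + ∑ i, ((J i - 1 - jX i : ℕ) : ℝ) * Δ i ∈ F := by
        rw [hmem]
        exact ⟨fun i => J i - 1 - jX i, fun i => by
          have := hjX i
          show J i - 1 - jX i < J i
          omega, rfl⟩
      have h2 := (hFT _ h1).1
      rw [(hval j hj).1]
      have h3 : ∑ i, ((jX i : ℝ) * Δ i + ((J i - 1 - jX i : ℕ) : ℝ) * Δ i) ≤
          ∑ i, 2 * (((lo i + (j i).toNat : ℕ) : ℝ) * Δ i) := by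
        refine Finset.sum_le_sum fun i _ => ?_
        have h4 : jX i < J i := hjX i
        have h5 : (((J i - 1 - jX i : ℕ) : ℝ)) = (J i : ℝ) - 1 - jX i := by
          have : J i - 1 - jX i + 1 + jX i = J i := by omega
          have : ((J i - 1 - jX i : ℕ) : ℝ) + 1 + jX i = J i := by exact_mod_cast this
          linarith
        rw [h5]
        have h6 := (hval j hj).2 i
        rcases le_or_gt 0 (Δ i) with h7 | h7
        · have h8 : lo i = J i / 2 := by rw [hlo]; simp [h7]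
          have h9 : J i ≤ 2 * (lo i + (j i).toNat) + 1 := by omega
          have h10 : (J i : ℝ) ≤ 2 * ((lo i + (j i).toNat : ℕ) : ℝ) + 1 := by exact_mod_cast h9
          have h13 := mul_nonneg (sub_nonneg.2 h10) h7
          generalize ((lo i + (j i).toNat : ℕ) : ℝ) = u at *
          linarith
        · have h8 : lo i = 0 := by rw [hlo]; simp [not_le.mpr h7]
          have h11 := (mem_Bx J' j).1 hj i
          have h12 : J' i = J i - J i / 2 := by rw [hJ']
          rw [h12] at h11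
          have h9 : 2 * (lo i + (j i).toNat) + 1 ≤ J i := by omega
          have h10 : 2 * ((lo i + (j i).toNat : ℕ) : ℝ) + 1 ≤ (J i : ℝ) := by exact_mod_cast h9
          have h13 := mul_nonneg (sub_nonneg.2 h10) (neg_nonneg.2 h7.le)
          generalize ((lo i + (j i).toNat : ℕ) : ℝ) = u at *
          linarith
      rw [Finset.sum_add_distrib, ← Finset.mul_sum] at h3
      rw [hXeq]
      linarith
    have hcount : (((Bx J').filter (fun y => P (ph t₁ Δ y))).card : ℝ) ≤ N := by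
      rw [hNdef]
      norm_cast
      refine Finset.card_le_card_of_injOn (ph t₁ Δ) ?_ ?_
      · intro y hy
        rw [Finset.mem_coe, Finset.mem_filter] at hy ⊢
        exact ⟨hphF y hy.1, hy.2⟩
      · intro x hx y hy hxy
        rw [Finset.mem_coe, Finset.mem_filter] at hx hy
        exact hinj x hx.1 y hy.1 hxy
    have hJJ : (F.card : ℝ) ≤ 2 ^ k * ∏ i, (J' i : ℝ) := by
      rw [hcardF]
      push_cast
      rw [show (2 : ℝ) ^ k = ∏ _i : Fin k, (2 : ℝ) by simp, ← Finset.prod_mul_distrib]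
      refine Finset.prod_le_prod (fun i _ => Nat.cast_nonneg _) fun i _ => ?_
      have h12 : J' i = J i - J i / 2 := by rw [hJ']
      have h1 : J i ≤ 2 * J' i := by omega
      exact_mod_cast h1
    have hX2 : T ^ (1 / 2 : ℝ) / 2 < X / 2 := by linarith
    obtain ⟨m, hm⟩ : ∃ m : ℕ, m = ⌈T ^ η⌉₊ := ⟨_, rfl⟩
    have hTη : 1 ≤ T ^ η := Real.one_le_rpow hT1 hηpos.le
    have hm1 : T ^ η ≤ m := by rw [hm]; exact Nat.le_ceil _
    have hm2 : (m : ℝ) ≤ 2 * T ^ η := by
      rw [hm]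
      have := Nat.ceil_lt_add_one (show 0 ≤ T ^ η by linarith)
      linarith
    have hmpos : 1 ≤ m := by
      have : (1 : ℝ) ≤ m := hTη.trans hm1
      exact_mod_cast this
    by_cases hcase : ∃ d : Fin k → ℤ, d ≠ 0 ∧ (∀ i, |(m : ℤ) * d i| < J' i) ∧
        |∑ i, (d i : ℝ) * Δ i| < 1 / m
    · obtain ⟨d, hd, hdJ, hsm⟩ := hcase
      have h1 := case_a t₁ Δ J' P hinj m hmpos d hd
        hdJ hsm (C * Real.log T) ?_ ?_
      · have h2 : (F.card : ℝ) ≤ 2 ^ (2 * k + 1) * N := by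
          calc (F.card : ℝ) ≤ 2 ^ k * ∏ i, (J' i : ℝ) := hJJ
            _ ≤ 2 ^ k * (2 ^ (k + 1) * N) := by
                have h3 := h1.trans (mul_le_mul_of_nonneg_left hcount
                  (show (0 : ℝ) ≤ 2 ^ (k + 1) by positivity))
                gcongr
            _ = 2 ^ (2 * k + 1) * N := by rw [← mul_assoc, ← pow_add]; congr 2; ring
        have hN0 : 0 ≤ N := by rw [hNdef]; positivity
        calc T ^ (-ε) * F.card ≤ T ^ (-ε) * (T ^ ε * N) := by
              have : (F.card : ℝ) ≤ T ^ ε * N := h2.trans (by gcongr)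
              gcongr
          _ = N := by rw [← mul_assoc, hTe, one_mul]
      · intro x
        refine hZ T _ e1 ?_ x
        intro γ hγ
        rw [Finset.mem_filter, Finset.mem_image, hP, not_not] at hγ
        obtain ⟨⟨j, hj, rfl⟩, hγ2⟩ := hγ
        refine ⟨?_, (hFT _ (hphF j hj)).2, ?_⟩
        · have := htwo j hj
          have h12 : 0 < T ^ (1 / 2 : ℝ) := by positivity
          linarith
        · rw [mul_comm]
          exact hγ2
      · have h2 : m ≤ 2 * (m / 2) + 1 := by omega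
        have h3 : (m : ℝ) ≤ 2 * ((m / 2 : ℕ) : ℝ) + 1 := by exact_mod_cast h2
        linarith
    · push Not at hcase
      have h1 := case_b t₁ Δ J' P hinj m hmpos hcase
        (T ^ (-(ε / 2))) ?_
      · have h2 : T ^ (-ε) * 2 ^ k ≤ T ^ (-(ε / 2)) := by
          have h3 : T ^ (-(ε / 2)) = T ^ (-ε) * T ^ (ε / 2) := by
            rw [← Real.rpow_add hTpos]; congr 1; ring
          rw [h3]
          gcongr
        calc T ^ (-ε) * F.card ≤ T ^ (-ε) * (2 ^ k * ∏ i, (J' i : ℝ)) := by gcongr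
          _ = (T ^ (-ε) * 2 ^ k) * ∏ i, (J' i : ℝ) := by ring
          _ ≤ T ^ (-(ε / 2)) * ∏ i, (J' i : ℝ) := by gcongr
          _ ≤ N := h1.trans hcount
      · intro G hG hGsub hGsep hGbig
        have hGX : ∀ t ∈ G, X / 2 ≤ t ∧ t ≤ 2 * (X / 2) := by
          intro t ht
          have h2 := hGsub t ht
          rw [Finset.mem_image] at h2
          obtain ⟨j, hj, rfl⟩ := h2
          constructor
          · have := htwo j hj
            linarith
          · have := hXle _ (hphF j hj)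
            linarith
        have hXh : 0 < X / 2 := by
          have h12 : 0 < T ^ (1 / 2 : ℝ) := by positivity
          linarith
        have hGc : (X / 2) ^ (2 / 3 + δ / 4) ≤ G.card := by
          have h2 : (X / 2) ^ (2 / 3 + δ / 4) ≤ T ^ (2 / 3 + δ / 4) := by
            apply Real.rpow_le_rpow hXh.le (by linarith) (by positivity)
          refine h2.trans ?_
          have h3 : T ^ (2 / 3 + δ) ≤ 2 ^ k * ((2 * m) ^ k * (G.card : ℝ)) :=
            hcard.trans (hJJ.trans (by gcongr))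
          have h4 : (2 * (m : ℝ)) ^ k ≤ 4 ^ k * T ^ (δ / 4) := by
            calc (2 * (m : ℝ)) ^ k ≤ (4 * T ^ η) ^ k :=
                  pow_le_pow_left₀ (by positivity) (by linarith) k
              _ = 4 ^ k * (T ^ η) ^ k := by rw [mul_pow]
              _ = 4 ^ k * T ^ (η * k) := by rw [← Real.rpow_natCast (T ^ η), ← Real.rpow_mul hTpos.le]
              _ ≤ 4 ^ k * T ^ (δ / 4) := by
                  gcongr
          have h5 : T ^ (2 / 3 + δ) = T ^ (2 / 3 + δ / 4) * (T ^ (δ / 4) * T ^ (δ / 2)) := by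
            rw [← Real.rpow_add hTpos, ← Real.rpow_add hTpos]; congr 1; ring
          have h6 : T ^ (2 / 3 + δ / 4) * (T ^ (δ / 4) * T ^ (δ / 2)) ≤
              (G.card : ℝ) * (T ^ (δ / 4) * T ^ (δ / 2)) := by
            rw [← h5]
            calc T ^ (2 / 3 + δ) ≤ 2 ^ k * ((2 * m) ^ k * (G.card : ℝ)) := h3
              _ ≤ 2 ^ k * ((4 ^ k * T ^ (δ / 4)) * (G.card : ℝ)) := by gcongr
              _ = (G.card : ℝ) * (T ^ (δ / 4) * 8 ^ k) := by
                  rw [show (8 : ℝ) = 2 * 4 by norm_num, mul_pow]; ring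
              _ ≤ (G.card : ℝ) * (T ^ (δ / 4) * T ^ (δ / 2)) := by gcongr
          exact le_of_mul_le_mul_right h6 (by positivity)
        have h2 := hNVG (X / 2) G (by linarith) hG hGX hGsep hGc
        have h3 : T ^ (-(ε / 2)) ≤ (X / 2) ^ (-(ε / 2)) :=
          Real.rpow_le_rpow_of_nonpos hXh (by linarith) (by linarith)
        refine le_trans (mul_le_mul_of_nonneg_right h3 (Nat.cast_nonneg _)) ?_
        exact h2

end Pool.Agent.Y954.R9
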